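import Pool.Agent.R130.BraidLambda

/-!
# MP_de0ecf_co, Q1: the diameter of a braid graph of type `Λ` is the dimension of the word
-/

set_option autoImplicit false

namespace Pool.Agent.Results.MP_de0ecf_co.DiamEqDim

open Pool.Agent.R130.Braid Pool.Agent.R130.Puzzle

/-- `d` is the diameter of the connected graph `H`: the largest distance of two vertices. -/
def IsDiam {V : Type*} (H : SimpleGraph V) (d : ℕ) : Prop :=
  H.Connected ∧ IsGreatest {k | ∃ u v : V, H.dist u v = k} d

/-- **In a Coxeter system of type `Λ` (simply laced and triangle free), the diameter of the braid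
graph of every reduced word is the number of braid shadows of its braid class.** -/
theorem result {B W : Type*} {M : CoxeterMatrix B} [Group W] (cs : CoxeterSystem M W)
    (hsl : SimplyLaced M) (htf : TriangleFree M) (α : List B) (hα : cs.IsReduced α) :
    (shadows M α).Finite ∧ IsDiam (braidGraph M α) (shadows M α).ncard := by
  have hs := shadows_eq (cs := cs) hsl hα
  refine ⟨by rw [hs]; exact Finset.finite_toSet _, braid_connected (cs := cs) hsl hα, ?_, ?_⟩
  · obtain ⟨u, v, h⟩ := antipodal_braid hsl htf hα
    refine ⟨u, v, ?_⟩
    rw [dist_braid hsl htf hα, hs, Set.ncard_coe_finset, Finset.filter_true_of_mem h]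
  · rintro k ⟨u, v, rfl⟩
    rw [dist_braid hsl htf hα, hs, Set.ncard_coe_finset]
    exact Finset.card_filter_le _ _

end Pool.Agent.Results.MP_de0ecf_co.DiamEqDim
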